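import Mathlib

/-!
# Project LR (helper414): eigenvector by Banach's fixed point theorem (Mathlib only)

By helper73.
-/

set_option autoImplicit false

namespace Pool.Agent.N73.LR

open Set

section

variable {H : Type} [NormedAddCommGroup H] [InnerProductSpace ℂ H]

/-- the set -/
def BB (e : H) : Set H := {x | inner ℂ e x = 1 ∧ ‖x - e‖ ≤ 1 / 2}

/-- the map -/
noncomputable def FF (e : H) (K : H →L[ℂ] H) (x : H) : H := (inner ℂ e (K x))⁻¹ • K x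

variable {e : H} {K : H →L[ℂ] H} {η : ℝ}

theorem inner_ee (he : ‖e‖ = 1) : inner ℂ e e = (1 : ℂ) := by
  rw [inner_self_eq_norm_sq_to_K, he]
  simp

theorem Kx_near (hη : η ≤ 1 / 100) (he : ‖e‖ = 1)
    (hK : ∀ x, ‖K x - inner ℂ e x • e‖ ≤ η * ‖x‖) {x : H} (hx : x ∈ BB e) :
    ‖K x - e‖ ≤ 15 / 1000 ∧ ‖inner ℂ e (K x) - 1‖ ≤ 15 / 1000 ∧
      985 / 1000 ≤ ‖inner ℂ e (K x)‖ := by
  obtain ⟨h1, h2⟩ := hx
  have h3 : ‖x‖ ≤ 3 / 2 := by
    have h4 : x = (x - e) + e := by abel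
    rw [h4]
    refine (norm_add_le _ _).trans ?_
    rw [he]
    linarith
  have h4 := hK x
  rw [h1, one_smul] at h4
  have h5 : ‖K x - e‖ ≤ 15 / 1000 := by
    refine h4.trans ?_
    have := norm_nonneg x
    nlinarith
  have h6 : inner ℂ e (K x) - 1 = inner ℂ e (K x - e) := by
    rw [inner_sub_right, inner_ee he]
  have h7 : ‖inner ℂ e (K x) - 1‖ ≤ 15 / 1000 := by
    rw [h6]
    refine (norm_inner_le_norm _ _).trans ?_
    rw [he, one_mul]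
    exact h5
  refine ⟨h5, h7, ?_⟩
  have h8 : ‖(1 : ℂ)‖ ≤ ‖inner ℂ e (K x)‖ + ‖inner ℂ e (K x) - 1‖ := by
    have h9 : (1 : ℂ) = inner ℂ e (K x) - (inner ℂ e (K x) - 1) := by ring
    calc ‖(1 : ℂ)‖ = ‖inner ℂ e (K x) - (inner ℂ e (K x) - 1)‖ := by rw [← h9]
      _ ≤ _ := norm_sub_le _ _
  rw [norm_one] at h8
  linarith

theorem FF_near (hη : η ≤ 1 / 100) (he : ‖e‖ = 1)
    (hK : ∀ x, ‖K x - inner ℂ e x • e‖ ≤ η * ‖x‖) {x : H} (hx : x ∈ BB e) :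
    inner ℂ e (FF e K x) = 1 ∧ ‖FF e K x - e‖ ≤ 31 / 1000 := by
  obtain ⟨h1, h2, h3⟩ := Kx_near hη he hK hx
  obtain ⟨a, ha⟩ : ∃ a : ℂ, a = inner ℂ e (K x) := ⟨_, rfl⟩
  rw [← ha] at h2 h3
  have ha0 : a ≠ 0 := by
    intro h
    rw [h, norm_zero] at h3
    norm_num at h3
  unfold FF
  rw [inner_smul_right, ← ha]
  refine ⟨inv_mul_cancel₀ ha0, ?_⟩
  have h4 : a⁻¹ • K x - e = a⁻¹ • ((K x - e) - (a - 1) • e) := by
    rw [sub_smul, one_smul, sub_sub_sub_cancel_right, smul_sub, smul_smul, inv_mul_cancel₀ ha0,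
      one_smul]
  rw [h4, norm_smul, norm_inv]
  have h5 : ‖(K x - e) - (a - 1) • e‖ ≤ 30 / 1000 := by
    refine (norm_sub_le _ _).trans ?_
    rw [norm_smul, he, mul_one]
    linarith
  have h6 : ‖a‖⁻¹ ≤ 1000 / 985 := by
    rw [inv_le_comm₀ (by linarith) (by norm_num)]
    norm_num
    linarith
  have h7 : 0 ≤ ‖a‖⁻¹ := by positivity
  calc ‖a‖⁻¹ * ‖(K x - e) - (a - 1) • e‖ ≤ 1000 / 985 * (30 / 1000) :=
        mul_le_mul h6 h5 (norm_nonneg _) (by norm_num)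
    _ ≤ 31 / 1000 := by norm_num

theorem FF_lip (_h0 : 0 ≤ η) (hη : η ≤ 1 / 100) (he : ‖e‖ = 1)
    (hK : ∀ x, ‖K x - inner ℂ e x • e‖ ≤ η * ‖x‖) {x y : H} (hx : x ∈ BB e) (hy : y ∈ BB e) :
    ‖FF e K x - FF e K y‖ ≤ 1 / 2 * ‖x - y‖ := by
  obtain ⟨h1, h2, h3⟩ := Kx_near hη he hK hx
  obtain ⟨h1', h2', h3'⟩ := Kx_near hη he hK hy
  obtain ⟨a, ha⟩ : ∃ a : ℂ, a = inner ℂ e (K x) := ⟨_, rfl⟩
  obtain ⟨b, hb⟩ : ∃ b : ℂ, b = inner ℂ e (K y) := ⟨_, rfl⟩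
  have hKd : ‖K x - K y‖ ≤ η * ‖x - y‖ := by
    have h4 := hK (x - y)
    rw [inner_sub_right, hx.1, hy.1, sub_self, zero_smul, sub_zero, map_sub] at h4
    exact h4
  have hab : ‖b - a‖ ≤ η * ‖x - y‖ := by
    have h4 : a - b = inner ℂ e (K x - K y) := by rw [inner_sub_right, ha, hb]
    rw [norm_sub_rev, h4]
    refine (norm_inner_le_norm _ _).trans ?_
    rw [he, one_mul]
    exact hKd
  have hKy : ‖K y‖ ≤ 1015 / 1000 := by
    have h4 : K y = (K y - e) + e := by abel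
    rw [h4]
    refine (norm_add_le _ _).trans ?_
    rw [he]
    linarith
  rw [← ha] at h2 h3
  rw [← hb] at h2' h3'
  have ha0 : a ≠ 0 := by
    intro h
    rw [h, norm_zero] at h3
    norm_num at h3
  have hb0 : b ≠ 0 := by
    intro h
    rw [h, norm_zero] at h3'
    norm_num at h3'
  have h4 : FF e K x - FF e K y = a⁻¹ • (K x - K y) + (a⁻¹ * b⁻¹ * (b - a)) • K y := by
    unfold FF
    rw [← ha, ← hb]
    have h5 : a⁻¹ * b⁻¹ * (b - a) = a⁻¹ - b⁻¹ := by field_simp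
    rw [h5, smul_sub, sub_smul]
    abel
  have h6 : ‖a‖⁻¹ ≤ 1000 / 985 := by
    rw [inv_le_comm₀ (by linarith) (by norm_num)]
    norm_num
    linarith
  have h6' : ‖b‖⁻¹ ≤ 1000 / 985 := by
    rw [inv_le_comm₀ (by linarith) (by norm_num)]
    norm_num
    linarith
  have h7 : 0 ≤ ‖a‖⁻¹ := by positivity
  have h7' : 0 ≤ ‖b‖⁻¹ := by positivity
  have h8 := norm_nonneg (x - y)
  have h9 : η * ‖x - y‖ ≤ 1 / 100 * ‖x - y‖ := mul_le_mul_of_nonneg_right hη h8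
  rw [h4]
  refine (norm_add_le _ _).trans ?_
  rw [norm_smul, norm_smul, norm_mul, norm_mul, norm_inv, norm_inv]
  have e1 : ‖a‖⁻¹ * ‖K x - K y‖ ≤ 1000 / 985 * (1 / 100 * ‖x - y‖) :=
    mul_le_mul h6 (hKd.trans h9) (norm_nonneg _) (by norm_num)
  have e2 : ‖a‖⁻¹ * ‖b‖⁻¹ * ‖b - a‖ * ‖K y‖ ≤
      1000 / 985 * (1000 / 985) * (1 / 100 * ‖x - y‖) * (1015 / 1000) := by
    refine mul_le_mul ?_ hKy (norm_nonneg _) (by positivity)
    refine mul_le_mul ?_ (hab.trans h9) (norm_nonneg _) (by norm_num)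
    exact mul_le_mul h6 h6' h7' (by norm_num)
  nlinarith

theorem exists_fix [CompleteSpace H] (h0 : 0 ≤ η) (hη : η ≤ 1 / 100) (he : ‖e‖ = 1)
    (hK : ∀ x, ‖K x - inner ℂ e x • e‖ ≤ η * ‖x‖) : ∃ z ∈ BB e, FF e K z = z := by
  have hcl : IsClosed (BB e) := by
    have h1 : IsClosed {x : H | inner ℂ e x = (1 : ℂ)} :=
      isClosed_eq (continuous_const.inner continuous_id) continuous_const
    have h2 : IsClosed {x : H | ‖x - e‖ ≤ 1 / 2} :=
      isClosed_le (by fun_prop) continuous_const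
    exact h1.inter h2
  have hmaps : MapsTo (FF e K) (BB e) (BB e) := by
    intro x hx
    obtain ⟨h1, h2⟩ := FF_near hη he hK hx
    exact ⟨h1, h2.trans (by norm_num)⟩
  have hcon : ContractingWith (1 / 2 : NNReal) (hmaps.restrict (FF e K) (BB e) (BB e)) := by
    refine ⟨by
      rw [← NNReal.coe_lt_coe]
      push_cast
      norm_num, LipschitzWith.of_dist_le_mul fun x y => ?_⟩
    rw [Subtype.dist_eq, Subtype.dist_eq, dist_eq_norm, dist_eq_norm]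
    have h1 := FF_lip h0 hη he hK x.2 y.2
    push_cast
    exact h1
  have hmem : e ∈ BB e := ⟨inner_ee he, by rw [sub_self, norm_zero]; norm_num⟩
  obtain ⟨y, hy, hfix, -⟩ := hcon.exists_fixedPoint' hcl.isComplete hmaps hmem (edist_ne_top _ _)
  exact ⟨y, hy, hfix⟩

theorem fix_unique (h0 : 0 ≤ η) (hη : η ≤ 1 / 100) (he : ‖e‖ = 1)
    (hK : ∀ x, ‖K x - inner ℂ e x • e‖ ≤ η * ‖x‖) {x y : H} (hx : x ∈ BB e) (hy : y ∈ BB e)
    (hfx : FF e K x = x) (hfy : FF e K y = y) : x = y := by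
  have h1 := FF_lip h0 hη he hK hx hy
  rw [hfx, hfy] at h1
  have h2 : ‖x - y‖ = 0 := by
    have := norm_nonneg (x - y)
    linarith
  exact sub_eq_zero.1 (norm_eq_zero.1 h2)

theorem perp_norm (he : ‖e‖ = 1) {v : H} (hv : ‖v‖ = 1) (hη : η ≤ 1 / 100)
    (h : 1 - η ≤ ‖inner ℂ e v‖) : ‖v - inner ℂ e v • e‖ ≤ 142 / 1000 := by
  have h1 : ‖v - inner ℂ e v • e‖ ^ 2 = 1 - ‖inner ℂ e v‖ ^ 2 := by
    rw [norm_sub_sq (𝕜 := ℂ), hv, inner_smul_right, ← inner_conj_symm v e, Complex.mul_conj,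
      norm_smul, he, Complex.normSq_eq_norm_sq]
    simp only [mul_one, one_pow]
    simp only [RCLike.re_eq_complex_re, Complex.ofReal_re]
    ring
  have h2 : ‖v - inner ℂ e v • e‖ ^ 2 ≤ (142 / 1000) ^ 2 := by
    rw [h1]
    have : (99 / 100 : ℝ) ≤ ‖inner ℂ e v‖ := by linarith
    nlinarith
  exact (pow_le_pow_iff_left₀ (norm_nonneg _) (by norm_num) two_ne_zero).1 h2

/-- one operator -/
theorem eig (h0 : 0 ≤ η) (hη : η ≤ 1 / 100) (he : ‖e‖ = 1)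
    (hK : ∀ x, ‖K x - inner ℂ e x • e‖ ≤ η * ‖x‖) {z : H} (hz : z ∈ BB e) (hfz : FF e K z = z)
    (U : H →L[ℂ] H) (hU : ∀ x, ‖U x‖ = ‖x‖) (hUK : U * K = K * U)
    (hUe : 1 - η ≤ ‖inner ℂ e (U e)‖) : U z = inner ℂ e (U z) • z := by
  obtain ⟨-, k2⟩ := FF_near hη he hK hz
  rw [hfz] at k2
  obtain ⟨-, -, k3⟩ := Kx_near hη he hK hz
  obtain ⟨a, ha⟩ : ∃ a : ℂ, a = inner ℂ e (K z) := ⟨_, rfl⟩
  rw [← ha] at k3
  have ha0 : a ≠ 0 := by
    intro h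
    rw [h, norm_zero] at k3
    norm_num at k3
  have hKz : K z = a • z := by
    have h1 := hfz
    unfold FF at h1
    rw [← ha] at h1
    rw [← h1, map_smul, smul_smul]
    have h2 : K (a⁻¹ • K z) = a⁻¹ • K (K z) := map_smul _ _ _
    have h3 : a • (a⁻¹ • K z) = K z := by rw [smul_smul, mul_inv_cancel₀ ha0, one_smul]
    rw [smul_smul] at h3
    conv_rhs => rw [h3]
    rw [← map_smul, h1]
  obtain ⟨c, hc⟩ : ∃ c : ℂ, c = inner ℂ e (U e) := ⟨_, rfl⟩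
  obtain ⟨d, hd⟩ : ∃ d : ℂ, d = inner ℂ e (U z) := ⟨_, rfl⟩
  have p1 := perp_norm he (v := U e) (by rw [hU, he]) hη hUe
  rw [← hc] at p1 hUe
  have hdc : ‖d - c‖ ≤ 31 / 1000 := by
    have h1 : d - c = inner ℂ e (U (z - e)) := by rw [map_sub, inner_sub_right, hd, hc]
    rw [h1]
    refine (norm_inner_le_norm _ _).trans ?_
    rw [he, one_mul, hU]
    exact k2
  have hd1 : 959 / 1000 ≤ ‖d‖ := by
    have h1 : ‖c‖ ≤ ‖d‖ + ‖d - c‖ := by
      have h9 : c = d - (d - c) := by ring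
      calc ‖c‖ = ‖d - (d - c)‖ := by rw [← h9]
        _ ≤ _ := norm_sub_le _ _
    linarith
  have hd0 : d ≠ 0 := by
    intro h
    rw [h, norm_zero] at hd1
    norm_num at hd1
  have hz' : d⁻¹ • U z ∈ BB e := by
    refine ⟨?_, ?_⟩
    · rw [inner_smul_right, ← hd, inv_mul_cancel₀ hd0]
    · have h1 : d⁻¹ • U z - e = d⁻¹ • (U (z - e) + (U e - c • e) + (c - d) • e) := by
        have h2 : U (z - e) + (U e - c • e) + (c - d) • e = U z - d • e := by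
          rw [map_sub, sub_smul]
          abel
        rw [h2, smul_sub, smul_smul, inv_mul_cancel₀ hd0, one_smul]
      rw [h1, norm_smul, norm_inv]
      have h3 : ‖U (z - e) + (U e - c • e) + (c - d) • e‖ ≤ 204 / 1000 := by
        refine (norm_add_le _ _).trans ?_
        have h4 := norm_add_le (U (z - e)) (U e - c • e)
        rw [hU] at h4
        rw [norm_smul, he, mul_one, norm_sub_rev c d]
        linarith
      have h6 : ‖d‖⁻¹ ≤ 1000 / 959 := by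
        rw [inv_le_comm₀ (by linarith) (by norm_num)]
        norm_num
        linarith
      calc ‖d‖⁻¹ * ‖U (z - e) + (U e - c • e) + (c - d) • e‖ ≤ 1000 / 959 * (204 / 1000) :=
            mul_le_mul h6 h3 (norm_nonneg _) (by norm_num)
        _ ≤ 1 / 2 := by norm_num
  have hKz' : K (d⁻¹ • U z) = a • (d⁻¹ • U z) := by
    have h1 : K (U z) = U (K z) := by
      have h2 := DFunLike.congr_fun hUK z
      exact h2.symm
    rw [map_smul, h1, hKz, map_smul, smul_comm]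
  have hfz' : FF e K (d⁻¹ • U z) = d⁻¹ • U z := by
    unfold FF
    rw [hKz', inner_smul_right, hz'.1, mul_one, smul_smul, inv_mul_cancel₀ ha0, one_smul]
  have h5 := fix_unique h0 hη he hK hz' hz hfz' hfz
  rw [← hd]
  rw [← h5, smul_smul, mul_inv_cancel₀ hd0, one_smul]
  rw [h5]

end

theorem fix (G : Type) [Group G] (H : Type) [NormedAddCommGroup H] [InnerProductSpace ℂ H]
    [CompleteSpace H] (π : G →* unitary (H →L[ℂ] H)) (e : H) (K : H →L[ℂ] H) (η : ℝ)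
    (he : ‖e‖ = 1) (h0 : 0 ≤ η) (hη : η ≤ 1 / 100)
    (hK : ∀ x, ‖K x - inner ℂ e x • e‖ ≤ η * ‖x‖)
    (hc : ∀ g, (π g : H →L[ℂ] H) * K = K * (π g : H →L[ℂ] H))
    (hg : ∀ g, 1 - η ≤ ‖inner ℂ e ((π g : H →L[ℂ] H) e)‖) :
    ∃ (χ : G →* unitary ℂ) (ζ : H), ‖ζ‖ = 1 ∧
      ∀ g, (π g : H →L[ℂ] H) ζ = ((χ g : unitary ℂ) : ℂ) • ζ := by
  obtain ⟨z, hz, hfz⟩ := exists_fix h0 hη he hK
  have hUn : ∀ g x, ‖(π g : H →L[ℂ] H) x‖ = ‖x‖ := fun g x =>
    ContinuousLinearMap.norm_map_of_mem_unitary (π g).2 x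
  have hev : ∀ g, (π g : H →L[ℂ] H) z = inner ℂ e ((π g : H →L[ℂ] H) z) • z := fun g =>
    eig h0 hη he hK hz hfz _ (hUn g) (hc g) (hg g)
  have hz0 : z ≠ 0 := by
    intro h
    have h1 := hz.1
    rw [h, inner_zero_right] at h1
    exact zero_ne_one h1
  obtain ⟨d, hd⟩ : ∃ d : G → ℂ, ∀ g, (π g : H →L[ℂ] H) z = d g • z :=
    ⟨fun g => inner ℂ e ((π g : H →L[ℂ] H) z), hev⟩
  have hn : ∀ g, ‖d g‖ = 1 := by
    intro g
    have h1 := hUn g z
    rw [hd, norm_smul] at h1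
    have h2 : ‖z‖ ≠ 0 := norm_ne_zero_iff.2 hz0
    exact mul_right_cancel₀ h2 (by rw [h1, one_mul])
  have hu : ∀ g, d g ∈ unitary ℂ := by
    intro g
    rw [Unitary.mem_iff_star_mul_self]
    have h1 : (star (d g)) * d g = (Complex.normSq (d g) : ℂ) := by
      rw [mul_comm]
      exact Complex.mul_conj (d g)
    rw [h1, Complex.normSq_eq_norm_sq, hn]
    simp
  have hmul : ∀ g h, d (g * h) = d g * d h := by
    intro g h
    have h1 : (π (g * h) : H →L[ℂ] H) z = (π g : H →L[ℂ] H) ((π h : H →L[ℂ] H) z) := by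
      rw [map_mul]
      rfl
    rw [hd, hd h, map_smul, hd g, smul_smul] at h1
    have h2 := smul_left_injective ℂ hz0 h1
    rw [h2, mul_comm]
  refine ⟨MonoidHom.mk' (fun g => (⟨d g, hu g⟩ : unitary ℂ)) fun g h => Subtype.ext (hmul g h),
    ((‖z‖⁻¹ : ℝ) : ℂ) • z, ?_, fun g => ?_⟩
  · rw [norm_smul]
    have h2 : ‖z‖ ≠ 0 := norm_ne_zero_iff.2 hz0
    simp [h2]
  · rw [map_smul, hd, smul_comm]
    rfl

end Pool.Agent.N73.LR
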