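import Pool.Agent.N414.LR.Stm
import Pool.Agent.N73.LR.FixA

/-!
# Project LR (helper414): S_FIX

By helper73.
-/

set_option autoImplicit false

namespace Pool.Agent.N73.LR.FIX

theorem main : Pool.Agent.N414.LR.S_FIX := by
  intro G _ H _ _ _ π e K η he h0 hη hK hc hg
  exact Pool.Agent.N73.LR.fix G H π e K η he h0 hη hK hc hg

end Pool.Agent.N73.LR.FIX
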